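import Mathlib

/-!
Detours (longest paths between two vertices), detour position sets and the detour diameter.
-/

set_option autoImplicit false

namespace Pool.Agent.R709.DP

variable {V : Type}

/-- `p` is a `u,v`-detour: a longest path from `u` to `v`. -/
def IsDetour (G : SimpleGraph V) {u v : V} (p : G.Walk u v) : Prop :=
  p.IsPath ∧ ∀ q : G.Walk u v, q.IsPath → q.length ≤ p.length

/-- `S` is a detour position set: for every two distinct `u, v ∈ S`, no `u,v`-detour contains a
vertex of `S \ {u, v}`. -/
def IsDetourPos (G : SimpleGraph V) (S : Finset V) : Prop :=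
  ∀ u ∈ S, ∀ v ∈ S, u ≠ v → ∀ p : G.Walk u v, IsDetour G p →
    ∀ w ∈ S, w ∈ p.support → w = u ∨ w = v

/-- The detour position number `dp(G)`: the largest size of a detour position set. -/
noncomputable def dp (G : SimpleGraph V) : ℕ :=
  sSup {k | ∃ S : Finset V, IsDetourPos G S ∧ S.card = k}

/-- The detour diameter: the length of a longest path of `G`. -/
noncomputable def detourDiam (G : SimpleGraph V) : ℕ :=
  sSup {k | ∃ (u v : V) (p : G.Walk u v), p.IsPath ∧ p.length = k}

end Pool.Agent.R709.DP
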