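import Pool.Agent.R709.DP.Defs

set_option autoImplicit false
set_option maxHeartbeats 4000000

namespace Pool.Agent.R709.DP

/-- adjacency lists of the example -/
def nbl : List (List (Fin 11)) :=
  [[1, 10], [0, 2, 3, 4], [1, 4, 8], [1, 6], [1, 2, 5, 10], [4], [3, 7], [6, 8, 9], [2, 7],
   [7, 10], [0, 4, 9]]

def nb (i : Fin 11) : List (Fin 11) := nbl.getD i.val []

def adjB (i j : Fin 11) : Bool := (nb i).contains j

/-- the example: edges 0-1 0-10 1-2 1-3 1-4 2-4 2-8 3-6 4-5 4-10 6-7 7-8 7-9 9-10 -/
def G11 : SimpleGraph (Fin 11) where
  Adj i j := adjB i j = true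
  symm := ⟨by decide⟩
  loopless := ⟨by decide⟩

instance : DecidableRel G11.Adj := fun i j => inferInstanceAs (Decidable (adjB i j = true))

/-- the property of a (reversed) path: if it ends in `v` and contains `w`, it has at most 9
vertices -/
def good (w v : Fin 11) (acc : List (Fin 11)) : Bool :=
  !(acc.head? == some v) || !(acc.contains w) || decide (acc.length ≤ 9)

/-- depth first search over all paths extending the reversed path `acc` -/
def run (w v : Fin 11) : ℕ → List (Fin 11) → Bool
  | 0, acc => good w v acc
  | f + 1, acc => good w v acc && (match acc with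
    | [] => true
    | c :: _ => (nb c).all fun x => acc.contains x || run w v f (x :: acc))

theorem run_good {w v : Fin 11} {f : ℕ} {acc : List (Fin 11)} (h : run w v f acc = true) :
    good w v acc = true := by
  cases f with
  | zero => simpa [run] using h
  | succ f =>
    rw [run.eq_def] at h
    simp only [Bool.and_eq_true] at h
    exact h.1

theorem run_path {w v : Fin 11} {c t : Fin 11} (p : G11.Walk c t) : ∀ (f : ℕ) (acc : List (Fin 11)),
    run w v f (c :: acc) = true → p.length ≤ f → p.IsPath →
    (∀ x ∈ p.support, x ∉ acc) → good w v (p.support.reverse ++ acc) = true := by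
  induction p with
  | nil =>
    intro f acc h _ _ _
    simpa using run_good h
  | @cons c x t hcx q ih =>
    intro f acc h hl hp hd
    cases f with
    | zero => simp at hl
    | succ f =>
      rw [run.eq_def] at h
      simp only [Bool.and_eq_true] at h
      have h2 := h.2
      simp only [List.all_eq_true] at h2
      have hx : x ∈ nb c := by
        have : adjB c x = true := hcx
        rw [adjB, List.contains_iff_mem] at this
        exact this
      have h3 := h2 x hx
      rw [SimpleGraph.Walk.cons_isPath_iff] at hp
      have hxc : x ∉ c :: acc := by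
        rw [List.mem_cons, not_or]
        refine ⟨fun h => ?_, hd x (by simp)⟩
        rw [h] at hcx
        exact G11.loopless.irrefl _ hcx
      have h4 : run w v f (x :: c :: acc) = true := by
        rw [Bool.or_eq_true] at h3
        rcases h3 with h5 | h5
        · rw [List.contains_iff_mem] at h5
          exact absurd h5 hxc
        · exact h5
      have h6 := ih f (c :: acc) h4 (by simpa using hl) hp.1 (by
        intro y hy
        rw [List.mem_cons, not_or]
        refine ⟨fun h => ?_, hd y (by simp [hy])⟩
        rw [h] at hy
        exact hp.2 hy)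
      simpa using h6

theorem path_len {u v w : Fin 11} (h : run w v 11 [u] = true) (p : G11.Walk u v) (hp : p.IsPath)
    (hw : w ∈ p.support) : p.length ≤ 8 := by
  have hl : p.length < 11 := by
    have := hp.length_lt
    simpa using this
  have h1 := run_path p 11 [] h hl.le hp (by simp)
  rw [List.append_nil, good] at h1
  simp only [Bool.or_eq_true, Bool.not_eq_true', decide_eq_true_eq, List.length_reverse,
    SimpleGraph.Walk.length_support] at h1
  rcases h1 with (h1 | h1) | h1
  · exfalso
    have : p.support.reverse.head? = some v := by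
      rw [List.head?_reverse]
      rw [List.getLast?_eq_getLast_of_ne_nil (SimpleGraph.Walk.support_ne_nil p)]
      rw [SimpleGraph.Walk.getLast_support]
    rw [this] at h1
    simp at h1
  · exfalso
    have : p.support.reverse.contains w = true := by
      rw [List.contains_iff_mem, List.mem_reverse]
      exact hw
    rw [this] at h1
    simp at h1
  · omega


/-! ### Explicit paths -/

/-- the walk through the vertices of a list -/
theorem exists_walk : ∀ (l : List (Fin 11)) (u : Fin 11),
    List.IsChain (fun i j => adjB i j = true) (u :: l) →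
    ∃ p : G11.Walk u ((u :: l).getLast (by simp)), p.support = u :: l := by
  intro l
  induction l with
  | nil => intro u _; exact ⟨SimpleGraph.Walk.nil, rfl⟩
  | cons x l ih =>
    intro u h
    rw [List.isChain_cons_cons] at h
    obtain ⟨p, hp⟩ := ih x h.2
    have hux : G11.Adj u x := h.1
    refine ⟨(SimpleGraph.Walk.cons hux p).copy rfl (by simp), ?_⟩
    simp [hp]

theorem exists_path {u v : Fin 11} (l : List (Fin 11))
    (h : List.IsChain (fun i j => adjB i j = true) (u :: l)) (hn : (u :: l).Nodup)
    (hv : (u :: l).getLast (by simp) = v) : ∃ p : G11.Walk u v, p.IsPath ∧ p.length = l.length := by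
  obtain ⟨p, hp⟩ := exists_walk l u h
  subst hv
  refine ⟨p, ?_, ?_⟩
  · rw [SimpleGraph.Walk.isPath_def, hp]; exact hn
  · have := p.length_support
    rw [hp] at this
    simpa using this.symm

theorem conn : G11.Connected := by
  have h : ∀ v : Fin 11, G11.Reachable 0 v := by
    have e : ∀ i j : Fin 11, adjB i j = true → G11.Reachable i j := fun i j h =>
      SimpleGraph.Adj.reachable h
    have e1 := e 0 1 (by decide)
    have e10 := e 0 10 (by decide)
    have e2 := e1.trans (e 1 2 (by decide))
    have e3 := e1.trans (e 1 3 (by decide))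
    have e4 := e1.trans (e 1 4 (by decide))
    have e5 := e4.trans (e 4 5 (by decide))
    have e6 := e3.trans (e 3 6 (by decide))
    have e7 := e6.trans (e 6 7 (by decide))
    have e8 := e2.trans (e 2 8 (by decide))
    have e9 := e7.trans (e 7 9 (by decide))
    intro v
    fin_cases v
    · exact SimpleGraph.Reachable.refl _
    · exact e1
    · exact e2
    · exact e3
    · exact e4
    · exact e5
    · exact e6
    · exact e7
    · exact e8
    · exact e9
    · exact e10
  exact ⟨fun u v => (h u).symm.trans (h v)⟩

/-- the three vertices -/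
def S3 : Finset (Fin 11) := {0, 5, 8}

theorem detour_of {u v w : Fin 11} (h : run w v 11 [u] = true)
    (hq : ∃ q : G11.Walk u v, q.IsPath ∧ q.length = 9) (p : G11.Walk u v) (hp : IsDetour G11 p) :
    w ∉ p.support := by
  intro hw
  have h1 := path_len h p hp.1 hw
  obtain ⟨q, hq1, hq2⟩ := hq
  have := hp.2 q hq1
  omega

theorem p05 : ∃ q : G11.Walk 0 5, q.IsPath ∧ q.length = 9 :=
  exists_path [10, 9, 7, 6, 3, 1, 2, 4, 5] (by decide) (by decide) (by decide)
theorem p08 : ∃ q : G11.Walk 0 8, q.IsPath ∧ q.length = 9 :=
  exists_path [1, 3, 6, 7, 9, 10, 4, 2, 8] (by decide) (by decide) (by decide)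
theorem p58 : ∃ q : G11.Walk 5 8, q.IsPath ∧ q.length = 9 :=
  exists_path [4, 10, 9, 7, 6, 3, 1, 2, 8] (by decide) (by decide) (by decide)

theorem rev {u v : Fin 11} (h : ∃ q : G11.Walk u v, q.IsPath ∧ q.length = 9) :
    ∃ q : G11.Walk v u, q.IsPath ∧ q.length = 9 := by
  obtain ⟨q, h1, h2⟩ := h
  exact ⟨q.reverse, h1.reverse, by simpa using h2⟩

theorem isDetourPos : IsDetourPos G11 S3 := by
  intro u hu v hv huv p hp w hw hws
  simp only [S3, Finset.mem_insert, Finset.mem_singleton] at hu hv hw
  rcases hu with rfl | rfl | rfl <;> rcases hv with rfl | rfl | rfl <;>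
    rcases hw with rfl | rfl | rfl <;>
    first
    | exact absurd rfl huv
    | exact Or.inl rfl
    | exact Or.inr rfl
    | exact absurd hws (detour_of (by decide +kernel) p05 p hp)
    | exact absurd hws (detour_of (by decide +kernel) p08 p hp)
    | exact absurd hws (detour_of (by decide +kernel) p58 p hp)
    | exact absurd hws (detour_of (by decide +kernel) (rev p05) p hp)
    | exact absurd hws (detour_of (by decide +kernel) (rev p08) p hp)
    | exact absurd hws (detour_of (by decide +kernel) (rev p58) p hp)

theorem dp_ge : 3 ≤ dp G11 := by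
  have hb : BddAbove {k | ∃ S : Finset (Fin 11), IsDetourPos G11 S ∧ S.card = k} := by
    refine ⟨11, ?_⟩
    rintro k ⟨S, -, rfl⟩
    simpa using S.card_le_univ
  exact le_csSup hb ⟨S3, isDetourPos, by decide⟩

theorem detourDiam_eq : detourDiam G11 = 10 := by
  apply IsGreatest.csSup_eq
  constructor
  · obtain ⟨p, h1, h2⟩ := exists_path (u := 5) (v := 6) [4, 2, 8, 7, 9, 10, 0, 1, 3, 6]
      (by decide) (by decide) (by decide)
    exact ⟨_, _, p, h1, h2⟩
  · rintro k ⟨u, v, p, hp, rfl⟩
    have := hp.length_lt
    simp at this
    omega

end Pool.Agent.R709.DP
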